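import Pool.Agent.Helper92.Ru.GoalsV

set_option autoImplicit false

open NumberField MvPolynomial IsDedekindDomain

namespace Pool.Agent.Helper7.Ru

open Pool.Agent.Helper92.Ru

theorem fin_lt_one_iff {K : Type} [Field K] [NumberField K] (v : FinitePlace K) (x : 𝓞 K) :
    v (x : K) < 1 ↔ x ∈ (FinitePlace.maximalIdeal v).asIdeal := by
  rw [← FinitePlace.norm_embedding_eq]
  exact FinitePlace.norm_lt_one_iff_mem K _ x

set_option linter.deprecated false in
theorem plAbove_fin (k : Type) [Field k] [NumberField k] (L : Type) [Field L] [NumberField L]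
    [Algebra k L] (v : FinitePlace k) :
    {w : FinitePlace L | Above v w}.Finite ∧
      {w : FinitePlace L | Above v w}.ncard ≤ Module.finrank k L := by
  classical
  set p := (FinitePlace.maximalIdeal v).asIdeal with hp
  have : p.IsMaximal := (FinitePlace.maximalIdeal v).isMaximal
  have hp0 : p ≠ ⊥ := (FinitePlace.maximalIdeal v).ne_bot
  let F : FinitePlace L → Ideal (𝓞 L) := fun w => (FinitePlace.maximalIdeal w).asIdeal
  have hFinj : Function.Injective F := by
    intro w₁ w₂ h
    apply FinitePlace.maximalIdeal_injective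
    exact HeightOneSpectrum.ext h
  have hmaps : ∀ w ∈ {w : FinitePlace L | Above v w},
      F w ∈ (IsDedekindDomain.primesOverFinset p (𝓞 L) : Set (Ideal (𝓞 L))) := by
    intro w hw
    rw [Finset.mem_coe, IsDedekindDomain.mem_primesOverFinset_iff hp0]
    refine ⟨(FinitePlace.maximalIdeal w).isPrime, ⟨?_⟩⟩
    ext x
    rw [Ideal.mem_under]
    refine (fin_lt_one_iff v x).symm.trans ((hw (x : k)).trans ?_)
    exact fin_lt_one_iff w (algebraMap (𝓞 k) (𝓞 L) x)
  have hfin : ((IsDedekindDomain.primesOverFinset p (𝓞 L) : Finset (Ideal (𝓞 L))) : Set (Ideal (𝓞 L))).Finite :=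
    Finset.finite_toSet _
  refine ⟨Set.Finite.of_injOn hmaps hFinj.injOn hfin, ?_⟩
  refine (Set.ncard_le_ncard_of_injOn F hmaps hFinj.injOn hfin).trans ?_
  rw [Set.ncard_coe_finset]
  have hnz : NoZeroSMulDivisors (𝓞 k) (𝓞 L) := by
    refine ⟨fun {c x} h => ?_⟩
    rw [Algebra.smul_def, mul_eq_zero] at h
    refine h.imp_left fun h0 => ?_
    exact (map_eq_zero_iff _ (FaithfulSMul.algebraMap_injective (𝓞 k) (𝓞 L))).mp h0
  exact Ideal.card_primesOverFinset_le_finrank (𝓞 L) k L hp0

theorem plAbove_inf (k : Type) [Field k] [NumberField k] (L : Type) [Field L] [NumberField L]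
    [Algebra k L] (v : InfinitePlace k) :
    Fintype.card (AbI L v) ≤ Module.finrank k L := by
  classical
  let : Algebra k ℂ := v.embedding.toAlgebra
  have key : ∀ w : AbI L v, ∃ φ : L →ₐ[k] ℂ, InfinitePlace.mk (φ : L →+* ℂ) = w.1 := by
    rintro ⟨w, hw⟩
    have h1 : InfinitePlace.mk (w.embedding.comp (algebraMap k L)) = InfinitePlace.mk v.embedding := by
      rw [InfinitePlace.mk_embedding, ← InfinitePlace.comap_mk, InfinitePlace.mk_embedding, hw]
    rcases InfinitePlace.mk_eq_iff.mp h1 with h2 | h2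
    · refine ⟨{ w.embedding with commutes' := fun r => ?_ }, ?_⟩
      · exact congrArg (fun f : k →+* ℂ => f r) h2
      · exact InfinitePlace.mk_embedding w
    · refine ⟨{ ComplexEmbedding.conjugate w.embedding with commutes' := fun r => ?_ }, ?_⟩
      · exact congrArg (fun f : k →+* ℂ => f r) h2
      · exact (InfinitePlace.mk_conjugate_eq _).trans (InfinitePlace.mk_embedding w)
  choose f hf using key
  have hinj : Function.Injective f := by
    intro w₁ w₂ h
    apply Subtype.ext
    rw [← hf w₁, ← hf w₂, h]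
  have : FiniteDimensional k L := Module.Finite.of_restrictScalars_finite ℚ k L
  calc Fintype.card (AbI L v) ≤ Fintype.card (L →ₐ[k] ℂ) := Fintype.card_le_of_injective f hinj
    _ = Module.finrank k L := AlgHom.card k L ℂ

theorem plAbove : PlAbove := fun k _ _ L _ _ _ =>
  ⟨fun v => plAbove_fin k L v, fun v => plAbove_inf k L v⟩

end Pool.Agent.Helper7.Ru
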